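import Pool.Agent.H381R4.BP.Final
import Pool.Agent.H381R4.BP.HME
import Pool.Agent.H404BP.BTE
import Pool.Agent.H208BP.BTH
import Pool.Agent.H338BP.DOM
import Pool.Agent.H368BP.FIN1
import Pool.Agent.H666BP.FIN2
import Pool.Agent.H488BP.GDO
import Pool.Agent.H896BP.GEN
import Pool.Agent.H48BP.LIM
import Pool.Agent.H398BP.LMA
import Pool.Agent.H473BP.HBD
import Pool.Agent.H197BP.PLY
import Pool.Agent.H329BP.PTW
import Pool.Agent.H487BP.RAD
import Pool.Agent.H86BP.RTV
import Pool.Agent.H208BP.SEC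
import Pool.Agent.H384R2.BP.SMO
import Pool.Agent.H406BP.VBA
import Pool.Agent.H470BP.IDN

/-!
# The lower-dimensional Busemann–Petty problem for sections of dimension 2 and 3

Proof by the team: the statements S_X of `Pool.Agent.H381R4.BP.Stubs`.
-/

set_option autoImplicit false
open MeasureTheory

namespace Pool.Agent.Results.MP_ad3614_gt.LowDimSections

/-- the Euclidean space `ℝ^n` -/
abbrev Eu (n : ℕ) : Type := EuclideanSpace ℝ (Fin n)

/-- `|A|`, the `n`-dimensional Lebesgue measure -/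
noncomputable def vol {n : ℕ} (A : Set (Eu n)) : ℝ := (volume A).toReal

/-- the volume `|A ∩ F|` of the central section of `A` by the `m`-dimensional subspace
`F = Ξ(ℝ^m)`, where `Ξ : ℝ^m → ℝ^n` is a linear isometry onto `F` -/
noncomputable def sec {n m : ℕ} (A : Set (Eu n)) (Ξ : Eu m →ₗᵢ[ℝ] Eu n) : ℝ := vol (Ξ ⁻¹' A)

/-- origin-symmetric convex bodies of `ℝ^n` -/
def SymBody {n : ℕ} (K : Set (Eu n)) : Prop :=
  IsCompact K ∧ Convex ℝ K ∧ (interior K).Nonempty ∧ ∀ x ∈ K, -x ∈ K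

/-- the constant `ω_n^{m/n} / ω_m`, `ω_m` the volume of the unit ball of `ℝ^m` -/
noncomputable def cnm (n m : ℕ) : ℝ :=
  vol (Metric.closedBall (0 : Eu n) 1) ^ ((m : ℝ) / n) / vol (Metric.closedBall (0 : Eu m) 1)

/-- the volume difference inequality with constant `c` for sections of dimension `m`:
`|K|^{m/n} - |L|^{m/n} ≤ c sup_F (|K ∩ F| - |L ∩ F|)` (`F` over the `m`-dimensional linear
subspaces) for all origin-symmetric convex bodies `L ⊆ K` of `ℝ^n` -/
def VDI (n m : ℕ) (c : ℝ) : Prop :=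
  ∀ K L : Set (Eu n), SymBody K → SymBody L → L ⊆ K →
    vol K ^ ((m : ℝ) / n) - vol L ^ ((m : ℝ) / n) ≤
      c * ⨆ Ξ : Eu m →ₗᵢ[ℝ] Eu n, (sec K Ξ - sec L Ξ)

/-- the comparison inequality with constant `c`, for `K` an origin-symmetric convex body and `L`
any bounded measurable set with `0` in its interior -/
def Comparison (n m : ℕ) (c : ℝ) : Prop :=
  ∀ K L : Set (Eu n), SymBody K → MeasurableSet L → Bornology.IsBounded L → 0 ∈ interior L →
    ∀ s : ℝ, 0 ≤ s → (∀ Ξ : Eu m →ₗᵢ[ℝ] Eu n, sec K Ξ ≤ sec L Ξ + s) →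
      vol K ^ ((m : ℝ) / n) ≤ vol L ^ ((m : ℝ) / n) + c * s

section aux

open Pool.Agent.H381BP

theorem gen : S_GEN := by
  have hidn : S_IDN := T_IDN T_LMA Pool.Agent.H86BP.T_RTV
  have hlim : S_LIM := Pool.Agent.H48BP.T_LIM T_HME Pool.Agent.H473BP.HBD.T_HBD
    Pool.Agent.H338BP.T_DOM Pool.Agent.H488BP.T_GDO T_PTW
  have hrad : S_RAD := Pool.Agent.H487BP.T_RAD
  have hsmo : Pool.Agent.H197BP.S_SMO2 := T_SMO2 hidn
  exact T_GEN (Pool.Agent.H197BP.T_PLY hsmo hlim (T_BTH hrad) (Pool.Agent.H404BP.T_BTE hrad)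
    Pool.Agent.H406BP.T_VBA) T_SEC

theorem sec_eq {n m : ℕ} (A : Set (Eu n)) (Ξ : Eu m →ₗᵢ[ℝ] Eu n) :
    Pool.Agent.H381BP.Fin.secVol A (LinearMap.range Ξ.toLinearMap) = sec A Ξ := by
  unfold Pool.Agent.H381BP.Fin.secVol sec vol
  congr 1
  have hmp := Ξ.equivRange.measurePreserving
  have he : MeasurableEmbedding (Ξ.equivRange) :=
    Ξ.equivRange.toHomeomorph.toMeasurableEquiv.measurableEmbedding
  have h := hmp.measure_preimage_emb he {w : LinearMap.range Ξ.toLinearMap | (w : Eu n) ∈ A}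
  rw [← h]
  rfl

theorem exists_iso {n m : ℕ} (F : Submodule ℝ (Eu n)) (hF : Module.finrank ℝ F = m) :
    ∃ Ξ : Eu m →ₗᵢ[ℝ] Eu n, LinearMap.range Ξ.toLinearMap = F := by
  subst hF
  let e := (stdOrthonormalBasis ℝ F).repr.symm
  refine ⟨F.subtypeₗᵢ.comp e.toLinearIsometry, ?_⟩
  ext x
  constructor
  · rintro ⟨v, rfl⟩
    exact (e v).2
  · intro hx
    refine ⟨e.symm ⟨x, hx⟩, ?_⟩
    show ((e (e.symm ⟨x, hx⟩) : F) : Eu n) = x
    rw [LinearIsometryEquiv.apply_symm_apply]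

theorem finrank_range {n m : ℕ} (Ξ : Eu m →ₗᵢ[ℝ] Eu n) :
    Module.finrank ℝ (LinearMap.range Ξ.toLinearMap) = m := by
  rw [LinearMap.finrank_range_of_inj Ξ.injective]
  simp

theorem iSup_eq {n m : ℕ} (K L : Set (Eu n)) :
    (⨆ F : {F : Submodule ℝ (EuclideanSpace ℝ (Fin n)) // Module.finrank ℝ F = m},
      (Pool.Agent.H381BP.Fin.secVol K F.1 - Pool.Agent.H381BP.Fin.secVol L F.1)) =
    ⨆ Ξ : Eu m →ₗᵢ[ℝ] Eu n, (sec K Ξ - sec L Ξ) := by
  let φ : (Eu m →ₗᵢ[ℝ] Eu n) →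
      {F : Submodule ℝ (EuclideanSpace ℝ (Fin n)) // Module.finrank ℝ F = m} :=
    fun Ξ => ⟨LinearMap.range Ξ.toLinearMap, finrank_range Ξ⟩
  have hφ : Function.Surjective φ := by
    rintro ⟨F, hF⟩
    obtain ⟨Ξ, hΞ⟩ := exists_iso F hF
    exact ⟨Ξ, Subtype.ext hΞ⟩
  rw [← hφ.iSup_comp]
  exact iSup_congr fun Ξ => by rw [← sec_eq K Ξ, ← sec_eq L Ξ]

end aux

/-- For sections of dimension m = 1, 2, 3 of origin-symmetric convex bodies of ℝ^n (m < n): the
volume difference inequality holds with the constant ω_n^{m/n}/ω_m of generalized intersection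
bodies, this constant is the least possible, and the inequality even holds for every bounded
measurable L with 0 in its interior; in particular (s = 0) if all m-dimensional central sections
of K are at most those of L then |K| ≤ |L| (the lower-dimensional Busemann–Petty problem). -/
theorem result : ∀ n m : ℕ, 1 ≤ m → m ≤ 3 → m < n →
    IsLeast {c : ℝ | VDI n m c} (cnm n m) ∧ Comparison n m (cnm n m) := by
  intro n m h1 h3 hmn
  have hF1 : Pool.Agent.H381BP.Fin.S_FIN1 := Pool.Agent.H381BP.Fin.T_FIN1 gen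
  have hF2 := Pool.Agent.H666BP.T_FIN2 hF1 n m h1 h3 hmn
  refine ⟨?_, ?_⟩
  · have hset : {c : ℝ | VDI n m c} = {c : ℝ | Pool.Agent.H381BP.Fin.VDI n m c} := by
      ext c
      constructor
      · intro h K L hK hL hLK
        have := h K L hK hL hLK
        rw [← iSup_eq] at this
        exact this
      · intro h K L hK hL hLK
        have := h K L hK hL hLK
        rw [iSup_eq] at this
        exact this
    rw [hset]
    exact hF2
  · intro K L hK hLm hLb hL0 s hs h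
    refine hF1 n m h1 h3 hmn K L hK hLm hLb hL0 s hs fun F hF => ?_
    obtain ⟨Ξ, rfl⟩ := exists_iso F hF
    rw [sec_eq, sec_eq]
    exact h Ξ

end Pool.Agent.Results.MP_ad3614_gt.LowDimSections
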